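import Pool.Agent.RN36.Main2

namespace Pool.Agent.Results.MP_8ede36_co.GeodesicExcess

theorem result {V : Type*} (G : SimpleGraph V) (hconn : G.Connected)
    (Δ : ℕ) (hdeg : ∀ v, (G.neighborSet v).encard ≤ Δ)
    (f : V → EuclideanSpace ℝ (Fin 2)) (C : ℝ)
    (hrough : ∀ x y, |‖f x - f y‖ - (G.dist x y : ℝ)| < C)
    (hnet : ∀ p : EuclideanSpace ℝ (Fin 2), ∃ x, ‖f x - p‖ < C) :
    (∃ x y, G.Adj x y ∧ 1 < ‖f x - f y‖) ∧
    ∃ c : ℝ, 0 < c ∧ ∃ n₀ : ℕ, ∀ n ≥ n₀, ∃ p : ℕ → V,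
      (∀ i < n, G.Adj (p i) (p (i + 1))) ∧ G.dist (p 0) (p n) = n ∧
      (n : ℝ) + c * Real.log n ≤ ∑ i ∈ Finset.range n, ‖f (p (i + 1)) - f (p i)‖ := by
  set e : ℂ ≃ₗᵢ[ℝ] EuclideanSpace ℝ (Fin 2) := Complex.orthonormalBasisOneI.repr with he
  have hC : 0 ≤ C := by
    obtain ⟨x, hx⟩ := hnet 0
    exact le_trans (norm_nonneg _) hx.le
  have hn : ∀ x y, ‖e.symm (f x) - e.symm (f y)‖ = ‖f x - f y‖ := by
    intro x y
    rw [← map_sub, LinearIsometryEquiv.norm_map]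
  have hΔ : ∀ v, ∃ s : Finset V, s.card ≤ Δ ∧ ∀ w, G.Adj v w → w ∈ s := by
    intro v
    have hfin : (G.neighborSet v).Finite := Set.finite_of_encard_le_coe (hdeg v)
    refine ⟨hfin.toFinset, ?_, ?_⟩
    · have := hdeg v
      rw [hfin.encard_eq_coe_toFinset_card] at this
      exact_mod_cast this
    · intro w hw
      rw [Set.Finite.mem_toFinset]
      exact hw
  obtain ⟨c1, L, hc1, hmain⟩ := Pool.Agent.RN36.main2_C G (fun v => e.symm (f v)) hconn Δ hΔ C hC
    (by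
      intro x y
      rw [hn]
      have := (abs_lt.mp (hrough x y)).2
      linarith)
    (by
      intro x y
      rw [hn]
      have := (abs_lt.mp (hrough x y)).1
      linarith)
    (by
      intro p
      obtain ⟨x, hx⟩ := hnet (e p)
      refine ⟨x, ?_⟩
      have : ‖e.symm (f x) - p‖ = ‖f x - e p‖ := by
        rw [← e.symm_apply_apply p, ← map_sub, LinearIsometryEquiv.norm_map, e.symm_apply_apply]
      rw [this]
      exact hx.le)
  have hsecond : ∃ c : ℝ, 0 < c ∧ ∃ n₀ : ℕ, ∀ n ≥ n₀, ∃ p : ℕ → V,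
      (∀ i < n, G.Adj (p i) (p (i + 1))) ∧ G.dist (p 0) (p n) = n ∧
      (n : ℝ) + c * Real.log n ≤ ∑ i ∈ Finset.range n, ‖f (p (i + 1)) - f (p i)‖ := by
    refine ⟨c1 / 4, by positivity, max (2 * L + 4) (⌈Real.exp (4 * (2 * C + 1) / c1)⌉₊ + 1), ?_⟩
    intro n hn0
    by_contra hno
    push Not at hno
    have hnL : 2 * L + 4 ≤ n := le_trans (le_max_left _ _) hn0
    have hnE : ⌈Real.exp (4 * (2 * C + 1) / c1)⌉₊ + 1 ≤ n := le_trans (le_max_right _ _) hn0
    obtain ⟨N, hN⟩ : ∃ N, n = N + 1 + L := ⟨n - 1 - L, by omega⟩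
    have h1 := hmain N (c1 / 4 * Real.log n) (by
      intro p hp1 hp2
      have hp3 := hno p (by rw [hN]; exact hp1) (by rw [hN]; push_cast; exact_mod_cast hp2)
      simp only [hn]
      rw [← hN]
      exact hp3.le)
    have h2 : Real.log (N + 1) ≤ ∑ r ∈ Finset.range N, 1 / ((r : ℝ) + 1) := by
      have h3 := log_add_one_le_harmonic N
      have h4 : ((harmonic N : ℚ) : ℝ) = ∑ r ∈ Finset.range N, 1 / ((r : ℝ) + 1) := by
        rw [harmonic]
        push_cast
        apply Finset.sum_congr rfl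
        intro r _
        rw [one_div]
      rw [← h4]
      push_cast at h3
      exact h3
    have hnr : (4 : ℝ) ≤ n := by
      have : 4 ≤ n := by omega
      exact_mod_cast this
    have h3 : Real.log n ≤ 2 * Real.log (N + 1) := by
      rw [← Real.log_rpow (by positivity), ]
      apply Real.log_le_log (by linarith)
      have h5 : (n : ℝ) ≤ 2 * ((N : ℝ) + 1) := by
        have : n ≤ 2 * (N + 1) := by omega
        exact_mod_cast this
      have h6 : ((N : ℝ) + 1) ^ (2 : ℝ) = ((N : ℝ) + 1) ^ 2 := by norm_cast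
      rw [h6]
      nlinarith
    have h4 : 4 * (2 * C + 1) / c1 < Real.log n := by
      rw [Real.lt_log_iff_exp_lt (by linarith)]
      have h7 := Nat.le_ceil (Real.exp (4 * (2 * C + 1) / c1))
      have h8 : ((⌈Real.exp (4 * (2 * C + 1) / c1)⌉₊ + 1 : ℕ) : ℝ) ≤ n := by exact_mod_cast hnE
      push_cast at h8
      linarith
    have h5 : c1 * Real.log (N + 1) ≤ c1 / 4 * Real.log n + 2 * C + 1 :=
      le_trans (mul_le_mul_of_nonneg_left h2 hc1.le) h1
    rw [div_lt_iff₀ hc1] at h4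
    nlinarith
  refine ⟨?_, hsecond⟩
  obtain ⟨c, hc, n₀, hall⟩ := hsecond
  obtain ⟨p, hp1, _, hp3⟩ := hall (max n₀ 2) (le_max_left _ _)
  by_contra hno
  push Not at hno
  have h1 : ∑ i ∈ Finset.range (max n₀ 2), ‖f (p (i + 1)) - f (p i)‖ ≤
      ∑ i ∈ Finset.range (max n₀ 2), (1 : ℝ) := by
    apply Finset.sum_le_sum
    intro i hi
    exact hno _ _ (hp1 i (Finset.mem_range.mp hi)).symm
  rw [Finset.sum_const, Finset.card_range, nsmul_eq_mul, mul_one] at h1
  have h2 : 0 < Real.log ((max n₀ 2 : ℕ) : ℝ) := by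
    apply Real.log_pos
    have : 2 ≤ max n₀ 2 := le_max_right _ _
    have : (2 : ℝ) ≤ ((max n₀ 2 : ℕ) : ℝ) := by exact_mod_cast this
    linarith
  have h3 := mul_pos hc h2
  linarith

end Pool.Agent.Results.MP_8ede36_co.GeodesicExcess
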