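import Pool.Agent.Lib8ede.Ray

namespace Pool.Agent.Results.MP_8ede36_co.PolylogDegrees

open Pool.Agent.Lib8ede

/-- There is a connected locally finite graph which is roughly isometric to the Euclidean plane
with multiplicative constant one, and in which the degree of a vertex at distance `r` from the
origin is at most a constant times `(log (2 + r)) ^ 5`. -/
theorem result :
    ∃ (V : Type) (G : SimpleGraph V) (f : V → EuclideanSpace ℝ (Fin 2)) (C : ℝ),
      G.Connected ∧ 0 < C ∧
      (∀ v : V, (G.neighborSet v).Finite ∧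
        ((G.neighborSet v).ncard : ℝ) ≤ C * Real.log (2 + ‖f v‖) ^ 5) ∧
      (∀ x y : V, |‖f x - f y‖ - (G.dist x y : ℝ)| < C) ∧
      (∀ p : EuclideanSpace ℝ (Fin 2), ∃ x : V, ‖f x - p‖ < C) := by
  have hconn : (unitGraph net).Connected := by
    have : Nonempty net := ⟨⟨gz 0 0, gz_mem 0 0⟩⟩
    refine ⟨fun x y => ?_⟩
    obtain ⟨_, _, w, _⟩ := dist_upper x.2 y.2
    exact ⟨w⟩
  set φ := Complex.orthonormalBasisOneI.repr with hφ
  refine ⟨net, unitGraph net, fun x => φ (x : ℂ), 1200000000, hconn, by norm_num, ?_, ?_, ?_⟩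
  · intro v
    obtain ⟨h1, h2⟩ := degree_bound (v : ℂ)
    have hsub : Subtype.val '' ((unitGraph net).neighborSet v) ⊆ {z ∈ net | ‖z - v‖ ≤ 1} := by
      rintro _ ⟨w, hw, rfl⟩
      refine ⟨w.2, ?_⟩
      rw [norm_sub_rev]
      exact hw.2
    have hfin : (Subtype.val '' ((unitGraph net).neighborSet v)).Finite := h1.subset hsub
    refine ⟨Set.Finite.of_finite_image hfin Subtype.val_injective.injOn, ?_⟩
    have h3 : ((unitGraph net).neighborSet v).ncard ≤ {z ∈ net | ‖z - v‖ ≤ 1}.ncard := by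
      rw [← Set.ncard_image_of_injective _ Subtype.val_injective]
      exact Set.ncard_le_ncard hsub h1
    have h4 : ‖φ (v : ℂ)‖ = ‖(v : ℂ)‖ := LinearIsometryEquiv.norm_map _ _
    simp only [h4]
    refine le_trans ?_ h2
    exact_mod_cast h3
  · intro x y
    obtain ⟨_, _, w, hw⟩ := dist_upper x.2 y.2
    have h1 : ((unitGraph net).dist x y : ℝ) ≤ w.length := by
      exact_mod_cast SimpleGraph.dist_le w
    obtain ⟨w', hw'⟩ := hconn.exists_walk_length_eq_dist x y
    have h2 := norm_le_length w'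
    rw [hw'] at h2
    have h3 : ‖φ (x : ℂ) - φ (y : ℂ)‖ = ‖(x : ℂ) - y‖ := by
      rw [← map_sub, LinearIsometryEquiv.norm_map]
    simp only [h3]
    rw [abs_lt]
    constructor <;> linarith
  · intro p
    refine ⟨⟨rnd (φ.symm p), rnd_mem _⟩, ?_⟩
    have h1 : φ (rnd (φ.symm p)) - p = φ (rnd (φ.symm p) - φ.symm p) := by
      rw [map_sub, LinearIsometryEquiv.apply_symm_apply]
    show ‖φ (rnd (φ.symm p)) - p‖ < 1200000000
    rw [h1, LinearIsometryEquiv.norm_map, norm_sub_rev]
    linarith [norm_sub_rnd (φ.symm p)]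

end Pool.Agent.Results.MP_8ede36_co.PolylogDegrees
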